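import Pool.Agent.H.MP_bb4c62_an.helper6.NDefs
namespace Pool.Agent.H.MP_bb4c62_an.helper6.NL
open Complex Metric Set Filter Topology
open Pool.Agent.H.MP_bb4c62_an.helper6.Perturb
open Pool.Agent.H.MP_bb4c62_an.helper6.Gadgets
variable {X : Type*} [NormedAddCommGroup X] [NormedSpace ℂ X]
variable {Y : Type*} [NormedAddCommGroup Y] [NormedSpace ℂ Y]

theorem plane_lemma (M : Set (ℂ × ℂ)) (hinf : M.Infinite) (h0 : ((0 : ℂ), (0 : ℂ)) ∈ M)
    (h1 : ((0 : ℂ), (1 : ℂ)) ∈ M)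
    (hvert : ∀ a e1 e2 e3 : ℂ, (a, e1) ∈ M → (a, e2) ∈ M → (a, e3) ∈ M →
      e1 = e2 ∨ e1 = e3 ∨ e2 = e3)
    (hinv : ∀ α β γ l : ℂ, l ≠ 0 → ∀ p1 p2 p3 : ℂ × ℂ, p1 ∈ M → p2 ∈ M → p3 ∈ M →
      p1 ≠ p2 → p1 ≠ p3 → p2 ≠ p3 →
      (p1.1 + α, l * p1.2 + β * p1.1 + γ) ∈ M → (p2.1 + α, l * p2.2 + β * p2.1 + γ) ∈ M →
      (p3.1 + α, l * p3.2 + β * p3.1 + γ) ∈ M →
      ∀ p : ℂ × ℂ, p ∈ M → (p.1 + α, l * p.2 + β * p.1 + γ) ∈ M) : False := by
  classical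
  -- Claim 1
  have claim1 : ∀ s e0 : ℂ, ∀ p1 p2 p3 : ℂ × ℂ, p1 ∈ M → p2 ∈ M → p3 ∈ M →
      p1 ≠ p2 → p1 ≠ p3 → p2 ≠ p3 → p1.2 = e0 + s * p1.1 → p2.2 = e0 + s * p2.1 →
      p3.2 = e0 + s * p3.1 → False := by
    intro s e0 p1 p2 p3 m1 m2 m3 d12 d13 d23 l1 l2 l3
    have key : ∀ l : ℂ, l ≠ 0 → ∀ e : ℂ, (0, e) ∈ M → (0, e0 + l * (e - e0)) ∈ M := by
      intro l hl e he
      have hfix : ∀ p : ℂ × ℂ, p.2 = e0 + s * p.1 →
          (p.1 + 0, l * p.2 + ((1 - l) * s) * p.1 + (1 - l) * e0) = p := by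
        intro p hp
        refine Prod.ext (by simp) ?_
        change l * p.2 + ((1 - l) * s) * p.1 + (1 - l) * e0 = p.2
        rw [hp]; ring
      have h2 := hinv 0 ((1 - l) * s) ((1 - l) * e0) l hl p1 p2 p3 m1 m2 m3 d12 d13 d23
        (by rw [hfix p1 l1]; exact m1) (by rw [hfix p2 l2]; exact m2)
        (by rw [hfix p3 l3]; exact m3) (0, e) he
      have h3 : ((0 : ℂ) + 0, l * e + ((1 - l) * s) * 0 + (1 - l) * e0) =
          ((0 : ℂ), e0 + l * (e - e0)) := by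
        refine Prod.ext (by simp) ?_
        change l * e + ((1 - l) * s) * 0 + (1 - l) * e0 = e0 + l * (e - e0)
        ring
      rw [← h3]
      exact h2
    have key2 : ∀ e : ℂ, (0, e) ∈ M → e = e0 := by
      intro e he
      by_contra hne
      have hd : e - e0 ≠ 0 := sub_ne_zero.mpr hne
      rcases hvert 0 _ _ _ (key 1 one_ne_zero e he) (key 2 two_ne_zero e he)
        (key 3 three_ne_zero e he) with h | h | h
      · exact hd (by linear_combination -h)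
      · exact hd (by linear_combination (-1 / 2 : ℂ) * h)
      · exact hd (by linear_combination -h)
    have e1 := key2 0 h0
    have e2 := key2 1 h1
    exact zero_ne_one (e1.trans e2.symm)
  -- three points from infinite sets
  have three : ∀ N : Set (ℂ × ℂ), N.Infinite → ∃ p1 p2 p3, p1 ∈ N ∧ p2 ∈ N ∧ p3 ∈ N ∧
      p1 ≠ p2 ∧ p1 ≠ p3 ∧ p2 ≠ p3 := by
    intro N hN
    obtain ⟨t, ht, hc⟩ := hN.exists_subset_card_eq 3
    obtain ⟨a, b, c, hab, hac, hbc, rfl⟩ := Finset.card_eq_three.mp hc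
    exact ⟨a, b, c, ht (by simp), ht (by simp), ht (by simp), hab, hac, hbc⟩
  -- the swap
  have swap : ∀ p ∈ M, p.1 ≠ 0 → ∀ q ∈ M, (q.1, 1 - q.2 + (2 * p.2 - 1) / p.1 * q.1) ∈ M := by
    intro p hp hp1 q hq
    have h2 := hinv 0 ((2 * p.2 - 1) / p.1) 1 (-1) (by norm_num) (0, 0) (0, 1) p h0 h1 hp
      (by simp) (fun h => hp1 (by rw [← h])) (fun h => hp1 (by rw [← h]))
      (by simpa using h1) (by simpa using h0)
      (by
        have : (p.1 + 0, -1 * p.2 + (2 * p.2 - 1) / p.1 * p.1 + 1) = p := by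
          refine Prod.ext (by simp) ?_
          change -1 * p.2 + (2 * p.2 - 1) / p.1 * p.1 + 1 = p.2
          rw [div_mul_cancel₀ _ hp1]; ring
        rw [this]; exact hp) q hq
    have h3 : (q.1 + 0, -1 * q.2 + (2 * p.2 - 1) / p.1 * q.1 + 1) =
        (q.1, 1 - q.2 + (2 * p.2 - 1) / p.1 * q.1) := by
      refine Prod.ext (by simp) ?_
      change -1 * q.2 + (2 * p.2 - 1) / p.1 * q.1 + 1 = 1 - q.2 + (2 * p.2 - 1) / p.1 * q.1
      ring
    rw [← h3]; exact h2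
  have same : ∀ p ∈ M, p.1 ≠ 0 → ∀ p' ∈ M, p'.1 ≠ 0 →
      (2 * p.2 - 1) / p.1 = (2 * p'.2 - 1) / p'.1 := by
    intro p hp hp1 p' hp' hp1'
    set r := (2 * p.2 - 1) / p.1 - (2 * p'.2 - 1) / p'.1 with hr
    have hg : ∀ q ∈ M, (q.1, q.2 + r * q.1) ∈ M := by
      intro q hq
      have h2 := swap p hp hp1 _ (swap p' hp' hp1' q hq)
      have h3 : (q.1, 1 - (1 - q.2 + (2 * p'.2 - 1) / p'.1 * q.1) + (2 * p.2 - 1) / p.1 * q.1) =
          (q.1, q.2 + r * q.1) := by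
        refine Prod.ext rfl ?_
        change 1 - (1 - q.2 + (2 * p'.2 - 1) / p'.1 * q.1) + (2 * p.2 - 1) / p.1 * q.1 =
          q.2 + r * q.1
        rw [hr]; ring
      rw [← h3]; exact h2
    have g1 := hg p hp
    have g2 := hg _ g1
    have hra : r * p.1 = 0 := by
      rcases hvert p.1 p.2 _ _ hp g1 g2 with h | h | h
      · linear_combination -h
      · have h' : p.2 = p.2 + r * p.1 + r * p.1 := h
        linear_combination (-1 / 2 : ℂ) * h'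
      · have h' : p.2 + r * p.1 = p.2 + r * p.1 + r * p.1 := h
        linear_combination -h'
    have hr0 := (mul_eq_zero.mp hra).resolve_right hp1
    exact sub_eq_zero.mp hr0
  -- the points off the vertical axis
  have hM' : {p ∈ M | p.1 ≠ 0}.Infinite := by
    intro hfin
    have h2 : (M \ {p ∈ M | p.1 ≠ 0}).Infinite := hinf.sdiff hfin
    obtain ⟨p1, p2, p3, m1, m2, m3, d12, d13, d23⟩ := three _ h2
    have hz : ∀ p ∈ M \ {p ∈ M | p.1 ≠ 0}, p.1 = 0 := fun p hp => by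
      by_contra h
      exact hp.2 ⟨hp.1, h⟩
    have z1 := hz p1 m1
    have z2 := hz p2 m2
    have z3 := hz p3 m3
    have e : ∀ p : ℂ × ℂ, p ∈ M → p.1 = 0 → (0, p.2) ∈ M := fun p hp h => by
      rw [← h]; exact hp
    rcases hvert 0 p1.2 p2.2 p3.2 (e p1 m1.1 z1) (e p2 m2.1 z2) (e p3 m3.1 z3) with h | h | h
    · exact d12 (Prod.ext (z1.trans z2.symm) h)
    · exact d13 (Prod.ext (z1.trans z3.symm) h)
    · exact d23 (Prod.ext (z2.trans z3.symm) h)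
  obtain ⟨p1, p2, p3, m1, m2, m3, d12, d13, d23⟩ := three _ hM'
  set s0 := (2 * p1.2 - 1) / p1.1 with hs0
  have hline : ∀ p ∈ M, p.1 ≠ 0 → p.2 = 1 / 2 + s0 / 2 * p.1 := by
    intro p hp hp1
    have h2 := same p hp hp1 p1 m1.1 m1.2
    rw [← hs0, div_eq_iff hp1] at h2
    linear_combination (1 / 2 : ℂ) * h2
  exact claim1 _ _ p1 p2 p3 m1.1 m2.1 m3.1 d12 d13 d23 (hline p1 m1.1 m1.2) (hline p2 m2.1 m2.2)
    (hline p3 m3.1 m3.2)

end Pool.Agent.H.MP_bb4c62_an.helper6.NL
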